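import Pool.Agent.QSB.StmtsS

/-!
# IJS of squad QSB: the field inj of RR
-/

set_option autoImplicit false

namespace Pool.Agent.QSB.H95

open Matrix Finset Pool.Agent.QSX Pool.Agent.QSB

theorem ijs (gwb : GwbStmt) (int : IntStmt) (cry : CryStmt) (rys : RysStmt) : IjsStmt := by
  intro Y hY ρ γ w z hρ hw hz hσ
  obtain ⟨S⟩ := hY
  obtain ⟨g1, -, -, -, -⟩ := gwb Y S
  obtain ⟨x, hx⟩ := hρ
  have hGx := (g1 ρ x hx).1
  have hpos := (g1 ρ x hx).2
  have hρ0 : ρ ≠ 0 := by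
    intro h
    rw [h, LinearMap.zero_apply] at hpos
    exact lt_irrefl _ hpos
  have hRpos := ip_self_pos hρ0
  have hGw := (g1 _ w hw).1
  have h2ρ0 : (2 : ℝ) • ρ ≠ 0 := smul_ne_zero two_ne_zero hρ0
  have hGz := (g1 γ z hz).1
  by_cases hneg : ip Y γ ((2 : ℝ) • ρ) < 0
  · exact (int Y S _ _ w z hGw h2ρ0 hGz).2.1 hneg
  · exfalso
    obtain ⟨s, hs⟩ := hσ
    have hGs := (g1 _ s hs).1
    have hge : 0 ≤ ip Y γ ρ := by
      rw [ip_smul_right] at hneg
      linarith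
    by_cases hprop : ∃ c : ℝ, (2 : ℝ) • ρ + γ = c • ρ
    · obtain ⟨c, hc⟩ := hprop
      have hγ : γ = (c - 2) • ρ := by
        refine LinearMap.ext fun v => ?_
        have h1 := LinearMap.congr_fun hc v
        rw [LinearMap.add_apply, LinearMap.smul_apply, LinearMap.smul_apply, smul_eq_mul,
          smul_eq_mul] at h1
        rw [LinearMap.smul_apply, smul_eq_mul]
        linarith
      have r1 := rys Y ⟨S⟩ ρ c ⟨x, hx⟩ (by rw [← hc]; exact ⟨s, hs⟩)
      have r2 := rys Y ⟨S⟩ ρ (c - 2) ⟨x, hx⟩ (by rw [← hγ]; exact ⟨z, hz⟩)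
      rcases r1 with h | h | h <;> rcases r2 with h' | h' | h' <;> linarith
    · have hprop' : ∀ c : ℝ, (2 : ℝ) • ρ + γ ≠ c • ρ := fun c hc => hprop ⟨c, hc⟩
      obtain ⟨n, k, hn, hk, h⟩ := cry Y S ρ ((2 : ℝ) • ρ + γ) x s hGx hGs hρ0 hprop'
      rw [ip_add_left, ip_smul_left] at hn
      have hn4 : (4 : ℝ) ≤ n := by
        by_contra hlt
        have hlt' : (n : ℝ) < 4 := not_le.1 hlt
        have := mul_lt_mul_of_pos_right hlt' hRpos
        linarith
      have hn4' : (4 : ℤ) ≤ n := by exact_mod_cast hn4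
      rcases h with ⟨h1, h2⟩ | ⟨h1, h2, h3⟩ | ⟨h1, h2, h3⟩
      · omega
      · nlinarith
      · omega

end Pool.Agent.QSB.H95
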